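import Pool.Agent.Lib.SmJ.G.TowerFacts
import Pool.Agent.Lib.SmH.Defs

/-!
# HEIGHTS (MP_48b749_nt), final layer: towers of rigid Selmer elements

* `card_SelZ_le_of_top`: if the tops of all Selmer cocycles of level `n + 1` are coboundaries, then
  `#SelZ_M ≤ C #V1 ^ M` for all `M`.
* `exists_tower`: if for every level there is a Selmer cocycle whose top is not a coboundary, then
  there is a tower `z N` of rigid Selmer elements, `2 z (N + 1) = z N`, with this property.
-/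

set_option autoImplicit false

namespace Pool.Agent.SmH

open Pool.Agent.SmJ Pool.Agent.SmJ.Sys

variable {G V V1 Pl : Type*} [Group G] [AddCommGroup V] [DistribMulAction G V]
  [AddCommGroup V1] [Module (ZMod 2) V1] {S : Sys G V V1 Pl}

theorem card_lev (h : S.Ok) (j : ℕ) : Finite {Q : V // (2 : ℕ) ^ j • Q = 0} ∧
    Nat.card {Q : V // (2 : ℕ) ^ j • Q = 0} ≤ Nat.card V1 ^ j := by
  have h1 := h.fin1
  induction j with
  | zero =>
    have : Subsingleton {Q : V // (2 : ℕ) ^ 0 • Q = 0} := by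
      refine ⟨?_⟩
      rintro ⟨x, hx⟩ ⟨y, hy⟩
      rw [pow_zero, one_smul] at hx hy
      exact Subtype.ext (hx.trans hy.symm)
    exact ⟨inferInstance, (Finite.card_le_one_iff_subsingleton.mpr this).trans (by simp)⟩
  | succ j ih =>
    obtain ⟨hf, hc⟩ := ih
    choose half hhalf using h.half
    have h2 : ∀ Q : V, (2 : ℕ) • (Q - half ((2 : ℕ) • Q)) = 0 := fun Q => by
      rw [smul_sub, hhalf, sub_self]
    let f : {Q : V // (2 : ℕ) ^ (j + 1) • Q = 0} → {Q : V // (2 : ℕ) ^ j • Q = 0} × V1 :=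
      fun Q => (⟨(2 : ℕ) • Q.1, by rw [smul_smul, ← pow_succ]; exact Q.2⟩,
        S.un (Q.1 - half ((2 : ℕ) • Q.1)))
    have hinj : Function.Injective f := by
      intro Q Q' hQ
      have e1 : (2 : ℕ) • Q.1 = (2 : ℕ) • Q'.1 := congrArg (fun x => (x.1.1 : V)) hQ
      have e2 : S.un (Q.1 - half ((2 : ℕ) • Q.1)) = S.un (Q'.1 - half ((2 : ℕ) • Q'.1)) :=
        congrArg Prod.snd hQ
      have e3 := congrArg S.iota e2
      rw [iota_un h (h2 _), iota_un h (h2 _), e1] at e3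
      exact Subtype.ext (sub_left_injective e3)
    refine ⟨Finite.of_injective f hinj, ?_⟩
    calc _ ≤ Nat.card ({Q : V // (2 : ℕ) ^ j • Q = 0} × V1) :=
          Nat.card_le_card_of_injective f hinj
      _ = Nat.card {Q : V // (2 : ℕ) ^ j • Q = 0} * Nat.card V1 := Nat.card_prod _ _
      _ ≤ Nat.card V1 ^ j * Nat.card V1 := Nat.mul_le_mul_right _ hc
      _ = _ := (pow_succ _ _).symm

/-- The fixed points of the twisted action are finite in number. -/
theorem finite_fix (h : S.Ok) {chi : G → ZMod 2} (hchi : S.HomG chi) :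
    Finite {Q : V // ∀ s, dl chi Q s = 0} := by
  have h1 := (h.fin_inv chi hchi S.inf).to_subtype
  exact Finite.of_injective (β := {Q : V | ∀ s ∈ S.D S.inf, dl chi Q s = 0})
    (fun Q => ⟨Q.1, fun s _ => Q.2 s⟩)
    fun Q Q' hQ => Subtype.ext (congrArg (fun x : {Q : V | ∀ s ∈ S.D S.inf, dl chi Q s = 0} =>
      x.1) hQ)

/-- The number of coboundaries of level `M`. -/
theorem card_cob (h : S.Ok) {chi : G → ZMod 2} (hchi : S.HomG chi) (M : ℕ) :
    Finite {t : G → V // t ∈ Cob (V := V) chi ∧ (2 : ℕ) ^ M • t = 0} ∧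
    Nat.card {t : G → V // t ∈ Cob (V := V) chi ∧ (2 : ℕ) ^ M • t = 0} ≤
      Nat.card {Q : V // ∀ s, dl chi Q s = 0} * Nat.card V1 ^ M := by
  have hf := finite_fix h hchi
  obtain ⟨hl, hc⟩ := card_lev h M
  have hdiv : ∀ Q : V, ∃ R, (2 : ℕ) ^ M • R = Q := by
    intro Q
    clear hl hc
    induction M with
    | zero => exact ⟨Q, by rw [pow_zero, one_smul]⟩
    | succ M ih =>
      obtain ⟨R, hR⟩ := ih
      obtain ⟨R', hR'⟩ := h.half R
      exact ⟨R', by rw [pow_succ, mul_smul, hR', hR]⟩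
  choose dv hdv using hdiv
  have hz : ∀ t : {t : G → V // t ∈ Cob (V := V) chi ∧ (2 : ℕ) ^ M • t = 0},
      ∃ z : V, t.1 = dl chi z ∧ ∀ s, dl chi ((2 : ℕ) ^ M • z) s = 0 := by
    rintro ⟨t, ⟨z, rfl⟩, ht⟩
    exact ⟨z, rfl, fun s => by rw [dl_nsmul]; exact congrFun ht s⟩
  choose z hz hz' using hz
  let f : {t : G → V // t ∈ Cob (V := V) chi ∧ (2 : ℕ) ^ M • t = 0} →
      {Q : V // ∀ s, dl chi Q s = 0} × {Q : V // (2 : ℕ) ^ M • Q = 0} :=
    fun t => (⟨(2 : ℕ) ^ M • z t, hz' t⟩, ⟨z t - dv ((2 : ℕ) ^ M • z t), by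
      rw [smul_sub, hdv, sub_self]⟩)
  have hinj : Function.Injective f := by
    intro t t' ht
    have e1 : (2 : ℕ) ^ M • z t = (2 : ℕ) ^ M • z t' := congrArg (fun x => (x.1.1 : V)) ht
    have e2 : z t - dv ((2 : ℕ) ^ M • z t) = z t' - dv ((2 : ℕ) ^ M • z t') :=
      congrArg (fun x => (x.2.1 : V)) ht
    rw [e1] at e2
    have e3 : z t = z t' := sub_left_injective e2
    exact Subtype.ext (by rw [hz t, hz t', e3])
  refine ⟨Finite.of_injective f hinj, ?_⟩
  calc _ ≤ Nat.card ({Q : V // ∀ s, dl chi Q s = 0} × {Q : V // (2 : ℕ) ^ M • Q = 0}) :=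
        Nat.card_le_card_of_injective f hinj
    _ = _ * Nat.card {Q : V // (2 : ℕ) ^ M • Q = 0} := Nat.card_prod _ _
    _ ≤ _ := Nat.mul_le_mul_left _ hc

/-- If the tops of level `n + 1` are coboundaries then every Selmer cocycle is a coboundary plus
a Selmer cocycle of level `n`. -/
theorem exists_of_top (h : S.Ok) {chi : G → ZMod 2} (hchi : S.HomG chi) {n : ℕ}
    (htop : ∀ Psi ∈ S.SelZ h chi (n + 1), (2 : ℕ) ^ n • Psi ∈ Cob (V := V) chi) (M : ℕ)
    (Psi : G → V) (hP : Psi ∈ S.SelZ h chi (n + M)) :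
    ∃ Phi ∈ S.SelZ h chi n, Psi - Phi ∈ Cob (V := V) chi := by
  induction M generalizing Psi with
  | zero => exact ⟨Psi, hP, by rw [sub_self]; exact zero_mem _⟩
  | succ M ih =>
    have h1 : (2 : ℕ) ^ M • Psi ∈ S.SelZ h chi (n + 1) := by
      refine SelZ_of_pow h chi (AddSubgroup.nsmul_mem _ hP _) ?_
      rw [smul_smul, ← pow_add]
      have := SelZ_pow h chi hP
      rwa [show n + 1 + M = n + (M + 1) by ring]
    have h2 := htop _ h1
    rw [smul_smul, ← pow_add] at h2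
    obtain ⟨z, hz⟩ := h2
    have hdiv : ∀ (m : ℕ) (Q : V), ∃ R, (2 : ℕ) ^ m • R = Q := by
      intro m Q
      induction m with
      | zero => exact ⟨Q, by rw [pow_zero, one_smul]⟩
      | succ m ih =>
        obtain ⟨R, hR⟩ := ih
        obtain ⟨R', hR'⟩ := h.half R
        exact ⟨R', by rw [pow_succ, mul_smul, hR', hR]⟩
    obtain ⟨z', hz'⟩ := hdiv (n + M) z
    have hlev : (2 : ℕ) ^ (n + M) • (Psi - dl chi z') = 0 := by
      rw [smul_sub, hz]
      funext s
      rw [Pi.sub_apply, Pi.smul_apply, ← dl_nsmul, hz', sub_self]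
      rfl
    have hcob : dl chi z' ∈ S.SelZ h chi (n + (M + 1)) := by
      refine Cob_SelZ h hchi ⟨z', rfl⟩ ?_
      have h3 := SelZ_pow h chi hP
      have h4 : dl chi z' = Psi - (Psi - dl chi z') := by abel
      rw [h4, smul_sub, h3, show n + (M + 1) = 1 + (n + M) by ring, pow_add, mul_smul, hlev,
        smul_zero, sub_zero]
    have h5 : Psi - dl chi z' ∈ S.SelZ h chi (n + M) :=
      SelZ_of_pow h chi (AddSubgroup.sub_mem _ hP hcob) hlev
    obtain ⟨Phi, hPhi, hPhi'⟩ := ih _ h5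
    refine ⟨Phi, hPhi, ?_⟩
    have h6 : Psi - Phi = (Psi - dl chi z' - Phi) + dl chi z' := by abel
    rw [h6]
    exact add_mem hPhi' ⟨z', rfl⟩

/-- The number of Selmer cocycles if the tops of one level are coboundaries. -/
theorem card_SelZ_le_of_top (h : S.Ok) {chi : G → ZMod 2} (hchi : S.HomG chi) {n : ℕ}
    (hfin : Finite (S.SelZ h chi n))
    (htop : ∀ Psi ∈ S.SelZ h chi (n + 1), (2 : ℕ) ^ n • Psi ∈ Cob (V := V) chi) :
    ∃ C : ℕ, ∀ M, Nat.card (S.SelZ h chi M) ≤ C * Nat.card V1 ^ M := by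
  have h1 := h.fin1
  have hf := finite_fix h hchi
  refine ⟨Nat.card (S.SelZ h chi n) * Nat.card {Q : V // ∀ s, dl chi Q s = 0}, fun M => ?_⟩
  have hpos : 0 < Nat.card {Q : V // ∀ s, dl chi Q s = 0} := by
    have : Nonempty {Q : V // ∀ s, dl chi Q s = 0} := ⟨⟨0, fun s => dl_zero chi s⟩⟩
    exact Nat.card_pos
  have hpos' : 0 < Nat.card V1 ^ M := by
    have : 0 < Nat.card V1 := Nat.card_pos
    positivity
  rcases le_total M n with hM | hM
  · calc Nat.card (S.SelZ h chi M) ≤ Nat.card (S.SelZ h chi n) :=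
          Nat.card_le_card_of_injective _ (AddSubgroup.inclusion_injective (SelZ_mono h chi hM))
      _ ≤ Nat.card (S.SelZ h chi n) * Nat.card {Q : V // ∀ s, dl chi Q s = 0} :=
        Nat.le_mul_of_pos_right _ hpos
      _ ≤ _ := Nat.le_mul_of_pos_right _ hpos'
  · obtain ⟨r, rfl⟩ := Nat.exists_eq_add_of_le hM
    obtain ⟨hcf, hcc⟩ := card_cob h hchi (n + r)
    have hex : ∀ Psi : S.SelZ h chi (n + r), ∃ Phi ∈ S.SelZ h chi n,
        Psi.1 - Phi ∈ Cob (V := V) chi := fun Psi => exists_of_top h hchi htop r Psi.1 Psi.2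
    choose Phi hPhi hPhi' using hex
    let f : S.SelZ h chi (n + r) → S.SelZ h chi n ×
        {t : G → V // t ∈ Cob (V := V) chi ∧ (2 : ℕ) ^ (n + r) • t = 0} :=
      fun Psi => (⟨Phi Psi, hPhi Psi⟩, ⟨Psi.1 - Phi Psi, hPhi' Psi,
        SelZ_pow h chi (AddSubgroup.sub_mem _ Psi.2 (SelZ_mono h chi hM (hPhi Psi)))⟩)
    have hinj : Function.Injective f := by
      intro Psi Psi' e
      have e1 : Phi Psi = Phi Psi' := congrArg (fun x => (x.1.1 : G → V)) e
      have e2 : Psi.1 - Phi Psi = Psi'.1 - Phi Psi' := congrArg (fun x => (x.2.1 : G → V)) e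
      rw [e1] at e2
      exact Subtype.ext (sub_left_injective e2)
    calc Nat.card (S.SelZ h chi (n + r)) ≤ Nat.card (S.SelZ h chi n ×
          {t : G → V // t ∈ Cob (V := V) chi ∧ (2 : ℕ) ^ (n + r) • t = 0}) :=
          Nat.card_le_card_of_injective f hinj
      _ = Nat.card (S.SelZ h chi n) * _ := Nat.card_prod _ _
      _ ≤ Nat.card (S.SelZ h chi n) * (Nat.card {Q : V // ∀ s, dl chi Q s = 0} *
          Nat.card V1 ^ (n + r)) := Nat.mul_le_mul_left _ hcc
      _ = _ := by ring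

end Pool.Agent.SmH
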